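import Pool.Agent.Helper11.SG.Goals2
import Pool.Agent.Helper42.SG.Final
import Pool.Agent.Helper29.BL.QSN
import Pool.Agent.Helper29.BL.PS

/-!
# Project SG, part 2 (MP_a41896_nt): GEO2 (packet 13091)
-/

set_option autoImplicit false

namespace Pool.Agent.Helper39.SG2

open WeierstrassCurve Height Height.AdmissibleAbsValues
open Pool.Agent.Helper29.BL Pool.Agent.Helper92.Ru Pool.Agent.Helper42.SG
open Pool.Agent.Helper92.SGE (QTR NDG)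

/-- if `q + x = 0` then `H (q - x) = 4 H x` -/
lemma four_of_add {G : Type} [AddCommGroup G] {H : G → ℝ} (h : IsQuad H) (q x : G)
    (h0 : q + x = 0) : H (q - x) = 4 * H x := by
  have e : q - x = -((2 : ℕ) • x) := by
    have : q = -x := eq_neg_of_add_eq_zero_left h0
    rw [this, two_nsmul]; abel
  rw [e, h.neg, h.nsmul]
  norm_num

theorem t_GEO2 (hQTR : QTR) (hNDG : NDG) : Pool.Agent.Helper11.SG.GEO2 := by
  intro K _ _ _ W₁ W₂ _ _ H₁ H₂ c₀ ε L θ₀ hH₁ hH₂ hε hθ₀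
  have hc0 : 0 ≤ c₀ := (abs_nonneg _).trans (hH₁.near 0)
  have hQ : IsQuad (nrm H₁ H₂) := isQuad_nrm hH₁.quad hH₂.quad
  set θ := min θ₀ (min (1 / 8) ε) with hθdef
  have hθ0 : 0 < θ := by positivity
  have hθa : θ ≤ θ₀ := min_le_left _ _
  have hθb : θ ≤ 1 / 8 := (min_le_right _ _).trans (min_le_left _ _)
  have hθc : θ ≤ ε := (min_le_right _ _).trans (min_le_right _ _)
  set K0 := 2 * c₀ / ε + 2 * |L| + 1 with hK0def
  have hL0 : 0 ≤ |L| := abs_nonneg _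
  have hL1 : L ≤ |L| := le_abs_self L
  have hce : 0 ≤ 2 * c₀ / ε := by positivity
  have hK1 : 1 ≤ K0 := by rw [hK0def]; linarith
  have hKL : 2 * L ≤ K0 := by rw [hK0def]; linarith
  have hKL' : L ≤ K0 := by rw [hK0def]; linarith
  have hKc : 2 * c₀ + ε ≤ ε * K0 := by
    have e1 : ε * (2 * c₀ / ε) = 2 * c₀ := by field_simp
    have e2 : ε * K0 = ε * (2 * c₀ / ε) + ε * (2 * |L|) + ε := by rw [hK0def]; ring
    have e3 : 0 ≤ ε * (2 * |L|) := by positivity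
    linarith
  refine ⟨θ, K0, hθ0, hθa, by linarith, ?_⟩
  intro z x₀ e hy hty hnear hgz hgx
  set y := nrm H₁ H₂ z with hydef
  set t := nrm H₁ H₂ x₀ with htdef
  have hy1 : 1 ≤ y := hK1.trans hy
  have hyt : y ≤ t := by nlinarith
  have ht : K0 ≤ t := hy.trans hyt
  have hq1 : (1 : ℝ) ≤ 4 ^ e := one_le_pow₀ (by norm_num)
  obtain ⟨hA, hB⟩ := hQTR _ (nrm H₁ H₂) hQ e z x₀ θ hθ0.le (by linarith) hnear
  rw [← hydef, ← htdef] at hA hB
  have hA' : t ≤ 2 * 4 ^ e * y := by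
    have : (1 / 2 : ℝ) ≤ (1 - θ) ^ 2 := by nlinarith
    nlinarith
  have hB' : 4 ^ e * y ≤ 2 * t := by
    have : (1 + θ) ^ 2 ≤ (2 : ℝ) := by nlinarith
    nlinarith
  have hK4 : K0 ≤ 2 * 4 ^ e := by
    have : K0 * y ≤ (2 * 4 ^ e) * y := hty.trans hA'
    exact le_of_mul_le_mul_right this (by linarith)
  have hz1 : ε * y ≤ hx z.1 := hgz.trans (gg_le_left z)
  have hz2 : ε * y ≤ hx z.2 := hgz.trans (gg_le_right z)
  have hx1 : ε * t ≤ hx x₀.1 := hgx.trans (gg_le_left x₀)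
  have hx2 : ε * t ≤ hx x₀.2 := hgx.trans (gg_le_right x₀)
  have hεy : 2 * c₀ + ε ≤ ε * y := hKc.trans (mul_le_mul_of_nonneg_left hy hε.le)
  have hεt : 2 * c₀ + ε ≤ ε * t := hKc.trans (mul_le_mul_of_nonneg_left ht hε.le)
  have n1 := hNDG K W₁ H₁ c₀ hH₁ z.1 (by linarith)
  have n2 := hNDG K W₂ H₂ c₀ hH₂ z.2 (by linarith)
  have n3 := hNDG K W₁ H₁ c₀ hH₁ x₀.1 (by linarith)
  have n4 := hNDG K W₂ H₂ c₀ hH₂ x₀.2 (by linarith)
  have hn1 := (abs_le.1 (hH₁.near x₀.1)).1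
  have hn2 := (abs_le.1 (hH₂.near x₀.2)).1
  have hsum : H₁ ((2 ^ e) • z.1 - x₀.1) + H₂ ((2 ^ e) • z.2 - x₀.2) ≤ θ ^ 2 * t := hnear
  have hp1 := hH₁.quad.nonneg ((2 ^ e) • z.1 - x₀.1)
  have hp2 := hH₂.quad.nonneg ((2 ^ e) • z.2 - x₀.2)
  have hθt : θ ^ 2 * t ≤ ε * t := by
    have : θ ^ 2 ≤ ε := by nlinarith
    exact mul_le_mul_of_nonneg_right this (by linarith)
  refine ⟨⟨n1.1, n2.1, n3.1, n4.1⟩, ⟨n1.2, n2.2⟩, ⟨fun h0 => ?_, fun h0 => ?_⟩, ⟨hz1, hz2⟩,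
    ⟨hx1, hx2⟩, ⟨hA', hB'⟩, by linarith, hKL'.trans hy⟩
  · have := four_of_add hH₁.quad _ _ h0
    linarith
  · have := four_of_add hH₂.quad _ _ h0
    linarith

end Pool.Agent.Helper39.SG2
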